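import Mathlib

namespace Pool.Agent.MP_9a65c4_lc

/-- Turing functionals `p ↦ (n ↦ F p n)`: the uniform version of `Nat.RecursiveIn`, with the
oracle `p : ℕ → ℕ` as a parameter. -/
inductive TuringFunctional : ((ℕ → ℕ) → ℕ →. ℕ) → Prop
  | zero : TuringFunctional fun _ _ => Part.some 0
  | succ : TuringFunctional fun _ n => Part.some (n + 1)
  | left : TuringFunctional fun _ n => Part.some (Nat.unpair n).1
  | right : TuringFunctional fun _ n => Part.some (Nat.unpair n).2
  | oracle : TuringFunctional fun p n => Part.some (p n)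
  | pair {F G : (ℕ → ℕ) → ℕ →. ℕ} : TuringFunctional F → TuringFunctional G →
      TuringFunctional fun p n => Nat.pair <$> F p n <*> G p n
  | comp {F G : (ℕ → ℕ) → ℕ →. ℕ} : TuringFunctional F → TuringFunctional G →
      TuringFunctional fun p n => G p n >>= F p
  | prec {F G : (ℕ → ℕ) → ℕ →. ℕ} : TuringFunctional F → TuringFunctional G →
      TuringFunctional fun p n =>
        (Nat.unpair n).2.rec (F p (Nat.unpair n).1) fun y IH =>
          IH >>= fun i => G p (Nat.pair (Nat.unpair n).1 (Nat.pair y i))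
  | rfind {F : (ℕ → ℕ) → ℕ →. ℕ} : TuringFunctional F →
      TuringFunctional fun p a => Nat.rfind fun n => (fun m => decide (m = 0)) <$> F p (Nat.pair a n)

/-- `y ≤_T x` for points given by their sets of names: one Turing functional sends every name
in `X` to a name in `Y`. -/
def Reduces (Y X : Set (ℕ → ℕ)) : Prop :=
  ∃ F, TuringFunctional F ∧ ∀ p ∈ X, ∃ q ∈ Y, ∀ n, q n ∈ F p n

/-- Names of `A` in the enumeration space. -/
def enumNames (A : Set ℕ) : Set (ℕ → ℕ) :=
  {p | A = {k | ∃ n, p n = k + 1}}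

/-- Kleene associates of a functional `Φ : ℕ^ℕ → ℕ`. -/
def associates (Φ : (ℕ → ℕ) → ℕ) : Set (ℕ → ℕ) :=
  {α | ∀ f : ℕ → ℕ, ∃ k : ℕ, ∀ m : ℕ,
    α (Encodable.encode ((List.range m).map f)) = if m < k then 0 else Φ f + 1}

end Pool.Agent.MP_9a65c4_lc
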