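import Mathlib

namespace Pool.Agent.MP_9a65c4_lc

attribute [fun_prop] Primrec

section
variable {α β γ σ : Type*} [Primcodable α] [Primcodable β] [Primcodable γ] [Primcodable σ]

@[fun_prop] theorem pr_id : Primrec fun a : α => a := Primrec.id
@[fun_prop] theorem pr_const (s : σ) : Primrec fun _ : α => s := Primrec.const s
@[fun_prop] theorem pr_comp {f : β → σ} {g : α → β} (hf : Primrec f) (hg : Primrec g) :
    Primrec fun a => f (g a) := hf.comp hg
@[fun_prop] theorem pr_fst {f : α → β × γ} (hf : Primrec f) : Primrec fun a => (f a).1 :=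
  Primrec.fst.comp hf
@[fun_prop] theorem pr_snd {f : α → β × γ} (hf : Primrec f) : Primrec fun a => (f a).2 :=
  Primrec.snd.comp hf
@[fun_prop] theorem pr_pair {f : α → β} {g : α → γ} (hf : Primrec f) (hg : Primrec g) :
    Primrec fun a => (f a, g a) := hf.pair hg
@[fun_prop] theorem pr_add {f g : α → ℕ} (hf : Primrec f) (hg : Primrec g) :
    Primrec fun a => f a + g a := Primrec.nat_add.comp hf hg
@[fun_prop] theorem pr_sub {f g : α → ℕ} (hf : Primrec f) (hg : Primrec g) :
    Primrec fun a => f a - g a := Primrec.nat_sub.comp hf hg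
@[fun_prop] theorem pr_unpair {f : α → ℕ} (hf : Primrec f) :
    Primrec fun a => Nat.unpair (f a) := Primrec.unpair.comp hf
@[fun_prop] theorem pr_natpair {f g : α → ℕ} (hf : Primrec f) (hg : Primrec g) :
    Primrec fun a => Nat.pair (f a) (g a) := Primrec₂.natPair.comp hf hg
@[fun_prop] theorem pr_range {f : α → ℕ} (hf : Primrec f) :
    Primrec fun a => List.range (f a) := Primrec.list_range.comp hf
@[fun_prop] theorem pr_length {f : α → List β} (hf : Primrec f) :
    Primrec fun a => (f a).length := Primrec.list_length.comp hf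
@[fun_prop] theorem pr_append {f g : α → List β} (hf : Primrec f) (hg : Primrec g) :
    Primrec fun a => f a ++ g a := Primrec.list_append.comp hf hg
@[fun_prop] theorem pr_cons {f : α → β} {g : α → List β} (hf : Primrec f) (hg : Primrec g) :
    Primrec fun a => f a :: g a := Primrec.list_cons.comp hf hg
@[fun_prop] theorem pr_getD {f : α → List β} {g : α → ℕ} (d : β) (hf : Primrec f)
    (hg : Primrec g) : Primrec fun a => (f a).getD (g a) d := (Primrec.list_getD d).comp hf hg
@[fun_prop] theorem pr_encode {f : α → β} (hf : Primrec f) :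
    Primrec fun a => Encodable.encode (f a) := Primrec.encode.comp hf
@[fun_prop] theorem pr_ofNatList {f : α → ℕ} (hf : Primrec f) :
    Primrec fun a => Denumerable.ofNat (List ℕ) (f a) := (Primrec.ofNat (List ℕ)).comp hf
@[fun_prop] theorem pr_map {f : α → List β} {g : α → β → σ} (hf : Primrec f)
    (hg : Primrec fun p : α × β => g p.1 p.2) : Primrec fun a => (f a).map (g a) :=
  Primrec.list_map hf hg

theorem pp_eq {f g : α → β} (hf : Primrec f) (hg : Primrec g) :
    PrimrecPred fun a => f a = g a := Primrec.eq.comp hf hg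
theorem pp_lt {f g : α → ℕ} (hf : Primrec f) (hg : Primrec g) :
    PrimrecPred fun a => f a < g a := Primrec.nat_lt.comp hf hg
theorem pp_le {f g : α → ℕ} (hf : Primrec f) (hg : Primrec g) :
    PrimrecPred fun a => f a ≤ g a := Primrec.nat_le.comp hf hg
theorem pp_imp {p q : α → Prop} (hp : PrimrecPred p) (hq : PrimrecPred q) :
    PrimrecPred fun a => p a → q a := (hp.not.or hq).of_eq fun a => by tauto
theorem pp_ex_mem {f : α → List β} {R : α → β → Prop} (hf : Primrec f)
    (hR : PrimrecPred fun p : α × β => R p.1 p.2) : PrimrecPred fun a => ∃ b ∈ f a, R a b := by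
  have h1 : PrimrecRel fun (b : β) (a : α) => R a b :=
    PrimrecPred.comp (p := fun p : α × β => R p.1 p.2) hR (Primrec.snd.pair Primrec.fst)
  exact h1.exists_mem_list.comp hf Primrec.id
theorem pp_all_mem {f : α → List β} {R : α → β → Prop} (hf : Primrec f)
    (hR : PrimrecPred fun p : α × β => R p.1 p.2) : PrimrecPred fun a => ∀ b ∈ f a, R a b := by
  have h1 : PrimrecRel fun (b : β) (a : α) => R a b :=
    PrimrecPred.comp (p := fun p : α × β => R p.1 p.2) hR (Primrec.snd.pair Primrec.fst)
  exact h1.forall_mem_list.comp hf Primrec.id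
theorem pp_ex_lt {f : α → ℕ} {R : α → ℕ → Prop} (hf : Primrec f)
    (hR : PrimrecPred fun p : α × ℕ => R p.1 p.2) : PrimrecPred fun a => ∃ b < f a, R a b :=
  (pp_ex_mem (pr_range hf) hR).of_eq fun a => by simp
theorem pp_all_lt {f : α → ℕ} {R : α → ℕ → Prop} (hf : Primrec f)
    (hR : PrimrecPred fun p : α × ℕ => R p.1 p.2) : PrimrecPred fun a => ∀ b < f a, R a b :=
  (pp_all_mem (pr_range hf) hR).of_eq fun a => by simp
theorem pp_mem {f : α → β} {g : α → List β} (hf : Primrec f) (hg : Primrec g) :
    PrimrecPred fun a => f a ∈ g a :=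
  (pp_ex_mem (R := fun a b => f a = b) hg (pp_eq (by fun_prop) (by fun_prop))).of_eq fun a => by simp
theorem pr_filter {f : α → List β} {R : α → β → Prop} [∀ a b, Decidable (R a b)] (hf : Primrec f)
    (hR : PrimrecPred fun p : α × β => R p.1 p.2) :
    Primrec fun a => (f a).filter fun b => decide (R a b) := by
  have h1 : PrimrecRel fun (b : β) (a : α) => R a b :=
    PrimrecPred.comp (p := fun p : α × β => R p.1 p.2) hR (Primrec.snd.pair Primrec.fst)
  exact h1.listFilter.comp hf Primrec.id

/-- A projection of a computable relation is r.e. -/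
theorem re_exists {P : α → ℕ → Prop} (hP : ComputablePred fun p : α × ℕ => P p.1 p.2) :
    REPred fun a => ∃ n, P a n := by
  classical
  have h : Partrec (fun x ↦ Nat.rfind fun n => Part.some (decide (P x n))) :=
    Partrec.rfind hP.decide.partrec
  refine h.dom_re.of_eq fun a => ?_
  simp [Nat.rfind_dom]

end

end Pool.Agent.MP_9a65c4_lc
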