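import Mathlib
import Pool.Agent.MP_9a65c4_lc.Defs
import Pool.Agent.MP_9a65c4_lc.PR

namespace Pool.Agent.MP_9a65c4_lc

open Filter

/-- The initial segment of `p` of length `k`. -/
def pre (p : ℕ → ℕ) (k : ℕ) : List ℕ := (List.range k).map p

theorem pre_getElem? (p : ℕ → ℕ) (k n : ℕ) :
    (pre p k)[n]? = if n < k then some (p n) else none := by
  unfold pre
  split_ifs with h
  · simp [h]
  · simp [not_lt.mp h]

theorem pre_length (p : ℕ → ℕ) (k : ℕ) : (pre p k).length = k := by simp [pre]

theorem pre_succ (p : ℕ → ℕ) (k : ℕ) : pre p (k + 1) = pre p k ++ [p k] := by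
  simp [pre, List.range_succ]

/-- `G` is a partial recursive approximation of `F` by finite oracles. -/
structure Approx (F : (ℕ → ℕ) → ℕ →. ℕ) (G : List ℕ → ℕ →. ℕ) : Prop where
  part : Partrec₂ G
  sound : ∀ p k n v, v ∈ G (pre p k) n → v ∈ F p n
  complete : ∀ p n v, v ∈ F p n → ∀ᶠ k in atTop, v ∈ G (pre p k) n

theorem approx_of_partrec {f : ℕ →. ℕ} (hf : Nat.Partrec f) :
    Approx (fun _ => f) (fun _ => f) where
  part := (Partrec.nat_iff.mpr hf).comp Computable.snd
  sound := fun _ _ _ _ h => h
  complete := fun _ _ _ h => Eventually.of_forall fun _ => h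

theorem exists_approx {F : (ℕ → ℕ) → ℕ →. ℕ} (hF : TuringFunctional F) : ∃ G, Approx F G := by
  induction hF with
  | zero => exact ⟨_, approx_of_partrec Nat.Partrec.zero⟩
  | succ => exact ⟨_, approx_of_partrec Nat.Partrec.succ⟩
  | left => exact ⟨_, approx_of_partrec Nat.Partrec.left⟩
  | right => exact ⟨_, approx_of_partrec Nat.Partrec.right⟩
  | oracle =>
    refine ⟨fun τ n => (τ[n]? : Part ℕ), Computable.ofOption Computable.list_getElem?, ?_, ?_⟩
    · intro p k n v h
      rw [pre_getElem?] at h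
      split_ifs at h with hn
      · simpa using h
      · simp at h
    · intro p n v h
      filter_upwards [eventually_gt_atTop n] with k hk
      rw [pre_getElem?, if_pos hk]
      simpa using h
  | @pair F1 F2 _ _ ih1 ih2 =>
    obtain ⟨G1, h1⟩ := ih1
    obtain ⟨G2, h2⟩ := ih2
    refine ⟨fun τ n => Nat.pair <$> G1 τ n <*> G2 τ n, ?_, ?_, ?_⟩
    · have : Partrec fun q : List ℕ × ℕ => (G1 q.1 q.2).bind fun a =>
          (G2 q.1 q.2).map fun b => Nat.pair a b := by
        refine Partrec.bind h1.part (Partrec.map (h2.part.comp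
          (Computable.fst.comp Computable.fst) (Computable.snd.comp Computable.fst)) ?_)
        exact (Primrec₂.natPair.to_comp.comp (Computable.snd.comp Computable.fst) Computable.snd)
      refine this.of_eq fun q => ?_
      simp [Seq.seq]
    · intro p k n v h
      simp only [Seq.seq, Part.map_eq_map, Part.mem_bind_iff, Part.mem_map_iff] at h ⊢
      obtain ⟨_, ⟨a, ha, rfl⟩, b, hb, rfl⟩ := h
      exact ⟨_, ⟨a, h1.sound _ _ _ _ ha, rfl⟩, b, h2.sound _ _ _ _ hb, rfl⟩
    · intro p n v h
      simp only [Seq.seq, Part.map_eq_map, Part.mem_bind_iff, Part.mem_map_iff] at h ⊢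
      obtain ⟨_, ⟨a, ha, rfl⟩, b, hb, rfl⟩ := h
      filter_upwards [h1.complete _ _ _ ha, h2.complete _ _ _ hb] with k ha' hb'
      exact ⟨_, ⟨a, ha', rfl⟩, b, hb', rfl⟩
  | @comp F1 F2 _ _ ih1 ih2 =>
    obtain ⟨G1, h1⟩ := ih1
    obtain ⟨G2, h2⟩ := ih2
    refine ⟨fun τ n => G2 τ n >>= G1 τ, ?_, ?_, ?_⟩
    · exact Partrec.bind h2.part (h1.part.comp (Computable.fst.comp Computable.fst) Computable.snd)
    · intro p k n v h
      simp only [Part.bind_eq_bind, Part.mem_bind_iff] at h ⊢
      obtain ⟨a, ha, hb⟩ := h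
      exact ⟨a, h2.sound _ _ _ _ ha, h1.sound _ _ _ _ hb⟩
    · intro p n v h
      simp only [Part.bind_eq_bind, Part.mem_bind_iff] at h ⊢
      obtain ⟨a, ha, hb⟩ := h
      filter_upwards [h2.complete _ _ _ ha, h1.complete _ _ _ hb] with k ha' hb'
      exact ⟨a, ha', hb'⟩
  | @prec F1 F2 _ _ ih1 ih2 =>
    obtain ⟨G1, h1⟩ := ih1
    obtain ⟨G2, h2⟩ := ih2
    refine ⟨fun τ n => (Nat.unpair n).2.rec (G1 τ (Nat.unpair n).1) fun y IH =>
          IH >>= fun i => G2 τ (Nat.pair (Nat.unpair n).1 (Nat.pair y i)), ?_, ?_, ?_⟩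
    · refine Partrec.nat_rec (α := List ℕ × ℕ) (f := fun q => (Nat.unpair q.2).2)
        (g := fun q => G1 q.1 (Nat.unpair q.2).1)
        (h := fun q r => G2 q.1 (Nat.pair (Nat.unpair q.2).1 (Nat.pair r.1 r.2))) ?_ ?_ ?_
      · exact Primrec.to_comp (by fun_prop)
      · exact h1.part.comp Computable.fst (Primrec.to_comp (by fun_prop))
      · exact h2.part.comp (Computable.fst.comp Computable.fst) (Primrec.to_comp (by fun_prop))
    · intro p k n
      generalize (Nat.unpair n).2 = m
      induction m with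
      | zero => exact fun v h => h1.sound _ _ _ _ h
      | succ m ih =>
        intro v h
        simp only [Part.bind_eq_bind, Part.mem_bind_iff] at h ⊢
        obtain ⟨a, ha, hb⟩ := h
        exact ⟨a, ih _ ha, h2.sound _ _ _ _ hb⟩
    · intro p n
      generalize (Nat.unpair n).2 = m
      induction m with
      | zero => exact fun v h => h1.complete _ _ _ h
      | succ m ih =>
        intro v h
        simp only [Part.bind_eq_bind, Part.mem_bind_iff] at h ⊢
        obtain ⟨a, ha, hb⟩ := h
        filter_upwards [ih _ ha, h2.complete _ _ _ hb] with k ha' hb'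
        exact ⟨a, ha', hb'⟩
  | @rfind F1 _ ih1 =>
    obtain ⟨G1, h1⟩ := ih1
    refine ⟨fun τ a => Nat.rfind fun n => (fun m => decide (m = 0)) <$> G1 τ (Nat.pair a n),
      ?_, ?_, ?_⟩
    · refine Partrec.rfind (α := List ℕ × ℕ) ?_
      refine Partrec.map (h1.part.comp (Computable.fst.comp Computable.fst)
        (Primrec.to_comp (by fun_prop))) ?_
      exact (PrimrecPred.decide (pp_eq (f := fun q : ((List ℕ × ℕ) × ℕ) × ℕ => q.2)
        (g := fun _ => 0) (by fun_prop) (by fun_prop))).to_comp
    · intro p k n v h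
      simp only [Nat.mem_rfind, Part.map_eq_map, Part.mem_map_iff] at h ⊢
      obtain ⟨⟨a, ha, ha'⟩, hb⟩ := h
      refine ⟨⟨a, h1.sound _ _ _ _ ha, ha'⟩, fun hm => ?_⟩
      obtain ⟨b, hb1, hb2⟩ := hb hm
      exact ⟨b, h1.sound _ _ _ _ hb1, hb2⟩
    · intro p n v h
      simp only [Nat.mem_rfind, Part.map_eq_map, Part.mem_map_iff] at h ⊢
      obtain ⟨⟨a, ha, ha'⟩, hb⟩ := h
      have hall : ∀ᶠ k in atTop, ∀ m ∈ Finset.range v,
          ∃ b ∈ G1 (pre p k) (Nat.pair n m), decide (b = 0) = false := by
        rw [eventually_all_finset]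
        intro m hm
        obtain ⟨b, hb1, hb2⟩ := hb (Finset.mem_range.mp hm)
        filter_upwards [h1.complete _ _ _ hb1] with k hk
        exact ⟨b, hk, hb2⟩
      filter_upwards [h1.complete _ _ _ ha, hall] with k hk1 hk2
      exact ⟨⟨a, hk1, ha'⟩, fun hm => hk2 _ (Finset.mem_range.mpr hm)⟩

theorem tf_of_partrec {f : ℕ →. ℕ} (hf : Nat.Partrec f) : TuringFunctional fun _ => f := by
  induction hf with
  | zero => exact .zero
  | succ => exact .succ
  | left => exact .left
  | right => exact .right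
  | pair _ _ ih1 ih2 => exact .pair ih1 ih2
  | comp _ _ ih1 ih2 => exact .comp ih1 ih2
  | prec _ _ ih1 ih2 => exact .prec ih1 ih2
  | rfind _ ih => exact .rfind ih

theorem tf_of_computable {f : ℕ → ℕ} (hf : Computable f) :
    TuringFunctional fun _ n => Part.some (f n) :=
  tf_of_partrec (Partrec.nat_iff.mp hf)

theorem tf_of_eq {F G : (ℕ → ℕ) → ℕ →. ℕ} (hF : TuringFunctional F) (h : ∀ p n, F p n = G p n) :
    TuringFunctional G := (funext fun p => funext (h p) : F = G) ▸ hF

theorem tf_pre : TuringFunctional fun p k => Part.some (Encodable.encode (pre p k)) := by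
  have hstep : TuringFunctional fun p n => Part.some (Encodable.encode
      (Denumerable.ofNat (List ℕ) (Nat.unpair (Nat.unpair n).2).2 ++
        [p (Nat.unpair (Nat.unpair n).2).1])) := by
    have h1 : TuringFunctional fun p n => Part.some (p (Nat.unpair (Nat.unpair n).2).1) :=
      tf_of_eq (.comp .oracle (tf_of_computable (f := fun n => (Nat.unpair (Nat.unpair n).2).1)
        (Primrec.to_comp (by fun_prop)))) fun p n => by simp
    have h2 := TuringFunctional.pair (tf_of_computable (f := fun n => (Nat.unpair (Nat.unpair n).2).2)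
        (Primrec.to_comp (by fun_prop))) h1
    have h3 := TuringFunctional.comp (tf_of_computable (f := fun n => Encodable.encode
      (Denumerable.ofNat (List ℕ) (Nat.unpair n).1 ++ [(Nat.unpair n).2]))
        (Primrec.to_comp (by fun_prop))) h2
    refine tf_of_eq h3 fun p n => ?_
    simp [Seq.seq]
  have h4 := TuringFunctional.prec (tf_of_computable (f := fun _ => Encodable.encode ([] : List ℕ))
    (Computable.const _)) hstep
  have h5 := TuringFunctional.comp h4 (tf_of_computable (f := fun n => Nat.pair 0 n)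
    (Primrec.to_comp (by fun_prop)))
  refine tf_of_eq h5 fun p n => ?_
  simp only [Part.bind_eq_bind, Part.bind_some, Nat.unpair_pair]
  induction n with
  | zero => simp [pre]
  | succ n ih =>
    simp only [ih, Part.bind_some, pre_succ]
    simp

theorem tf_bounded {H : ℕ → List ℕ → ℕ} (hH : Computable₂ H) {b : ℕ → ℕ} (hb : Computable b) :
    TuringFunctional fun p c => Part.some (H c (pre p (b c))) := by
  have h1 := TuringFunctional.comp tf_pre (tf_of_computable hb)
  have h2 := TuringFunctional.pair (tf_of_computable Computable.id) h1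
  have h3 := TuringFunctional.comp (tf_of_computable (f := fun n =>
    H (Nat.unpair n).1 (Denumerable.ofNat (List ℕ) (Nat.unpair n).2))
    (hH.comp (Primrec.to_comp (by fun_prop)) (Primrec.to_comp (by fun_prop)))) h2
  refine tf_of_eq h3 fun p n => ?_
  simp [Seq.seq]

end Pool.Agent.MP_9a65c4_lc
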