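import Pool.Agent.MP_9a65c4_lc.ThreeV

/-! The functional, the reduction to the complement of `C`, and the main theorem. -/

namespace Pool.Agent.MP_9a65c4_lc.Th

open Filter Classical

variable {k : ℕ}

/-- The functional. -/
noncomputable def Ph (k : ℕ) (f : ℕ → ℕ) : ℕ :=
  if ∃ n, f 0 ∉ El k n ∧ f 0 ∈ Dk k (f (n + 1)) then 1 else 0

/-- The associate of `Ph` computed from a finite part `τ` of an enumeration. -/
noncomputable def asF (k c : ℕ) (τ : List ℕ) : ℕ :=
  if (Denumerable.ofNat (List ℕ) c).length = 0 then 0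
  else if (Denumerable.ofNat (List ℕ) c).getD 0 0 ∈
      El k ((Denumerable.ofNat (List ℕ) c).length - 1) then
    (if ∃ n < (Denumerable.ofNat (List ℕ) c).length - 1,
      ¬ (Denumerable.ofNat (List ℕ) c).getD 0 0 ∈ El k n ∧
        (Denumerable.ofNat (List ℕ) c).getD 0 0 ∈
          Dk k ((Denumerable.ofNat (List ℕ) c).getD (n + 1) 0) then 2 else 1)
  else if (Denumerable.ofNat (List ℕ) c).getD 0 0 + 1 ∈ τ then 1 else 0

theorem pr_asF (k : ℕ) : Primrec₂ (asF k) := by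
  unfold asF Primrec₂
  refine Primrec.ite (pp_eq (by fun_prop) (by fun_prop)) (by fun_prop) ?_
  refine Primrec.ite (pp_mem (by fun_prop) (by fun_prop)) ?_ ?_
  · refine Primrec.ite (pp_ex_lt (by fun_prop) ?_) (by fun_prop) (by fun_prop)
    exact (pp_mem (by fun_prop) (by fun_prop)).not.and (pp_mem (by fun_prop) (by fun_prop))
  · exact Primrec.ite (pp_mem (by fun_prop) (by fun_prop)) (by fun_prop) (by fun_prop)

theorem asF_succ (f : ℕ → ℕ) (m : ℕ) (τ : List ℕ) :
    asF k (Encodable.encode (pre f (m + 1))) τ =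
      if f 0 ∈ El k m then Ph k f + 1 else if f 0 + 1 ∈ τ then 1 else 0 := by
  unfold asF
  rw [Denumerable.ofNat_encode, pre_length, if_neg (Nat.succ_ne_zero m), Nat.add_sub_cancel,
    pre_getD f (Nat.succ_pos m)]
  by_cases h : f 0 ∈ El k m
  · rw [if_pos h, if_pos h]
    unfold Ph
    have : (∃ n < m, ¬ f 0 ∈ El k n ∧ f 0 ∈ Dk k ((pre f (m + 1)).getD (n + 1) 0)) ↔
        ∃ n, f 0 ∉ El k n ∧ f 0 ∈ Dk k (f (n + 1)) := by
      constructor
      · rintro ⟨n, hn, h1, h2⟩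
        rw [pre_getD f (by omega)] at h2
        exact ⟨n, h1, h2⟩
      · rintro ⟨n, h1, h2⟩
        have hn : n < m := by
          by_contra hn
          exact h1 (El_mono (not_lt.mp hn) h)
        exact ⟨n, hn, h1, by rwa [pre_getD f (by omega)]⟩
    by_cases h5 : ∃ n, f 0 ∉ El k n ∧ f 0 ∈ Dk k (f (n + 1))
    · rw [if_pos (this.mpr h5), if_pos h5]
    · rw [if_neg (fun h6 => h5 (this.mp h6)), if_neg h5]
  · rw [if_neg h, if_neg h]

theorem Ph_reduces {B : Set ℕ} (h1 : (EK k)ᶜ ⊆ B) (h2 : ∀ x ∈ B, x ∉ DK k) :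
    Reduces (associates (Ph k)) (enumNames B) := by
  have hb : Primrec fun c => (Denumerable.ofNat (List ℕ) c).length := by fun_prop
  refine ⟨_, tf_bounded (pr_asF k).to_comp hb.to_comp, fun p hp => ⟨_, ?_, fun n =>
    Part.mem_some _⟩⟩
  have hB : B = {k | ∃ n, p n = k + 1} := hp
  intro f
  have hex : ∃ m, f 0 ∈ El k m ∨ f 0 + 1 ∈ pre p (m + 1) := by
    by_cases hE : f 0 ∈ EK k
    · obtain ⟨s, hs⟩ := hE
      exact ⟨s, Or.inl hs⟩
    · have := h1 hE
      rw [hB] at this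
      obtain ⟨n, hn⟩ := this
      exact ⟨n, Or.inr (List.mem_map.mpr ⟨n, by simp, hn⟩)⟩
  refine ⟨Nat.find hex + 1, fun m => ?_⟩
  show asF k (Encodable.encode (pre f m))
    (pre p (Denumerable.ofNat (List ℕ) (Encodable.encode (pre f m))).length) = _
  rw [Denumerable.ofNat_encode, pre_length]
  rcases m with _ | m
  · simp [asF, pre]
  rw [asF_succ]
  by_cases hm : m < Nat.find hex
  · have := Nat.find_min hex hm
    push Not at this
    rw [if_neg this.1, if_neg this.2, if_pos (by omega)]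
  · have hle : Nat.find hex ≤ m := not_lt.mp hm
    rw [if_neg (show ¬ m + 1 < Nat.find hex + 1 by omega)]
    by_cases hE : f 0 ∈ El k m
    · rw [if_pos hE]
    · rw [if_neg hE]
      have h3 : f 0 + 1 ∈ pre p (m + 1) := by
        rcases Nat.find_spec hex with h | h
        · exact absurd (El_mono hle h) hE
        · obtain ⟨i, hi, hi'⟩ := List.mem_map.mp h
          exact List.mem_map.mpr ⟨i, List.mem_range.mpr
            (lt_of_lt_of_le (List.mem_range.mp hi) (by omega)), hi'⟩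
      rw [if_pos h3]
      have h4 : f 0 ∉ DK k := h2 _ (cont_pre hp _ _ h3)
      unfold Ph
      rw [if_neg]
      rintro ⟨n, _, hn⟩
      exact h4 ⟨_, hn⟩

theorem Ph_not_computable (hk : ¬ REPred fun c => ¬ ∃ s, ax k s c) :
    ¬ ∃ α ∈ associates (Ph k), Computable α := by
  rintro ⟨α, hα, hc⟩
  let z : ℕ → ℕ → ℕ := fun x i => x * (1 - i)
  have hz : Primrec fun q : ℕ × ℕ => Encodable.encode (pre (z q.1) (q.2 + 1)) := by
    unfold pre
    refine pr_encode (pr_map (by fun_prop) ?_)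
    exact Primrec.nat_mul.comp (by fun_prop) (by fun_prop)
  have hP : ComputablePred fun q : ℕ × ℕ =>
      α (Encodable.encode (pre (z q.1) (q.2 + 1))) ≠ 0 ∧ ¬ q.1 ∈ El k q.2 := by
    have h1 : PrimrecPred fun r : (ℕ × ℕ) × ℕ => ¬ r.2 = 0 ∧ ¬ r.1.1 ∈ El k r.1.2 :=
      (pp_eq (by fun_prop) (by fun_prop)).not.and (pp_mem (by fun_prop) (by fun_prop)).not
    exact Computable.computablePred
      (h1.decide.to_comp.comp (Computable.id.pair (hc.comp hz.to_comp)))
  obtain ⟨x, ⟨t, ht⟩, m, hm1, hm2⟩ := no_between hk (re_exists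
    (P := fun x m => α (Encodable.encode (pre (z x) (m + 1))) ≠ 0 ∧ ¬ x ∈ El k m) hP) (by
      intro x hx
      obtain ⟨l, hl⟩ := hα (z x)
      refine ⟨l, ?_, fun h => hx ⟨l, h⟩⟩
      unfold pre
      rw [hl, if_neg (by omega)]
      omega)
  let g : ℕ → ℕ := fun i => if i < m + 1 then z x i else t
  have hg : pre g (m + 1) = pre (z x) (m + 1) :=
    List.map_congr_left fun i hi => if_pos (List.mem_range.mp hi)
  have h1 := assoc_eq hα (z x) (m + 1) hm1
  have h2 := assoc_eq hα g (m + 1) (hg ▸ hm1)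
  have h3 : Ph k (z x) = 0 := by
    unfold Ph
    rw [if_neg]
    rintro ⟨n, _, hn⟩
    have h0 : z x (n + 1) = 0 := by simp [z]
    rw [h0] at hn
    exact absurd hn List.not_mem_nil
  have h4 : Ph k g = 1 := by
    unfold Ph
    rw [if_pos]
    refine ⟨m, ?_, ?_⟩
    · simpa [g, z] using hm2
    · simpa [g, z] using ht
  rw [hg, h1, h3, h4] at h2
  omega

/-- The enumeration of `A` from a finite part `τ` of an enumeration of the complement of `C`. -/
noncomputable def enA (k n : ℕ) (τ : List ℕ) : ℕ :=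
  if (Nat.unpair n).1 ∈ Vl k (Nat.unpair n).2 ∨ (¬ (Nat.unpair n).1 ∈ El k (Nat.unpair n).2 ∧
    ∀ c < (Nat.unpair n).1 + 1, ax k (Nat.unpair n).2 c ∨ c + 1 ∈ τ)
  then (Nat.unpair n).1 + 1 else 0

theorem pr_enA (k : ℕ) : Primrec₂ (enA k) := by
  unfold enA Primrec₂
  refine Primrec.ite ((pp_mem (by fun_prop) (by fun_prop)).or
    ((pp_mem (by fun_prop) (by fun_prop)).not.and (pp_all_lt (by fun_prop) ?_)))
    (by fun_prop) (by fun_prop)
  exact (pp_ax (by fun_prop) (by fun_prop) (by fun_prop)).or (pp_mem (by fun_prop) (by fun_prop))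

theorem A_reduces {C : Set ℕ} (hC : ∀ c, c ∈ C ↔ ∃ s, ax k s c) :
    Reduces (enumNames ((EK k)ᶜ ∪ VK k)) (enumNames Cᶜ) := by
  have hb : Primrec fun n : ℕ => (Nat.unpair n).2 := by fun_prop
  refine ⟨_, tf_bounded (pr_enA k).to_comp hb.to_comp, fun p hp => ⟨_, ?_, fun n =>
    Part.mem_some _⟩⟩
  have hB : Cᶜ = {k | ∃ n, p n = k + 1} := hp
  show (EK k)ᶜ ∪ VK k = {x | ∃ n, enA k n (pre p (Nat.unpair n).2) = x + 1}
  ext x
  constructor
  · rintro (h | ⟨s, hs⟩)
    · have h1 : ∀ᶠ s in atTop, ∀ c ∈ Finset.range (x + 1), ax k s c ∨ c + 1 ∈ pre p s := by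
        rw [eventually_all_finset]
        intro c _
        by_cases hc : c ∈ C
        · obtain ⟨t, ht⟩ := (hC c).mp hc
          filter_upwards [eventually_ge_atTop t] with s hs using Or.inl (ax_mono hs ht)
        · have h2 : c ∈ Cᶜ := hc
          rw [hB] at h2
          obtain ⟨n, hn⟩ := h2
          filter_upwards [eventually_gt_atTop n] with s hs using
            Or.inr (List.mem_map.mpr ⟨n, List.mem_range.mpr hs, hn⟩)
      obtain ⟨s, hs⟩ := h1.exists
      refine ⟨Nat.pair x s, ?_⟩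
      unfold enA
      simp only [Nat.unpair_pair]
      exact if_pos (Or.inr ⟨fun h' => h ⟨s, h'⟩, fun c hc => hs c (Finset.mem_range.mpr hc)⟩)
    · refine ⟨Nat.pair x s, ?_⟩
      unfold enA
      simp only [Nat.unpair_pair]
      exact if_pos (Or.inl hs)
  · rintro ⟨n, hn⟩
    unfold enA at hn
    split_ifs at hn with h
    have hx : (Nat.unpair n).1 = x := by omega
    rw [hx] at h
    rcases h with h | ⟨h1, h2⟩
    · exact Or.inr ⟨_, h⟩
    · refine Or.inl fun ⟨t, ht⟩ => h1 ?_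
      have key : ∀ t ≥ (Nat.unpair n).2, x ∈ El k t → x ∈ El k (Nat.unpair n).2 := by
        intro t ht
        induction ht with
        | refl => exact id
        | @step t ht ih =>
          intro h
          rcases (mem_El_succ t x).mp h with h | ⟨_, ⟨c, hc, h3, h4⟩, _⟩
          · exact ih h
          · rcases h2 c hc with h5 | h5
            · exact absurd (ax_mono ht h5) h4
            · exact absurd ((hC c).mpr ⟨_, h3⟩) (cont_pre hp _ _ h5)
      exact key _ (le_max_right t _) (El_mono (le_max_left _ _) ht)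

theorem graph_op {B : Set ℕ} {y : ℕ → ℕ} (h : Reduces {y} (enumNames B)) :
    ∃ e, ∀ n v, (∃ a, Op e B a ∧ aN a = n ∧ aV a = v) ↔ v = y n := by
  obtain ⟨F, hF, hFy⟩ := h
  obtain ⟨G, hG⟩ := exists_approx hF
  obtain ⟨c, hc⟩ := exists_Gc hG.part
  obtain ⟨e, he⟩ := exists_op c ∅ ∅
  refine ⟨e, fun n v => ?_⟩
  rw [← he B n v]
  simp only [Finset.coe_empty, Set.sdiff_empty, Set.union_empty]
  constructor
  · rintro ⟨τ, hτ, hv⟩
    obtain ⟨p, hp, hpτ⟩ := exists_name_extending hτ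
    obtain ⟨q, rfl, hq⟩ := hFy p hp
    rw [← hc, ← hpτ] at hv
    exact Part.mem_unique (hG.sound _ _ _ _ hv) (hq n)
  · rintro rfl
    obtain ⟨p, hp, _⟩ := exists_name_extending (τ := []) (B := B) (fun k hk => by simp at hk)
    obtain ⟨q, rfl, hq⟩ := hFy p hp
    obtain ⟨k, hk⟩ := (hG.complete _ _ _ (hq n)).exists
    exact ⟨pre p k, cont_pre hp k, hc _ _ ▸ hk⟩

theorem three (C : Set ℕ) (hC : REPred (· ∈ C)) (hC' : ¬ ComputablePred (· ∈ C)) :
    ∃ E V : Set ℕ, REPred (· ∈ E) ∧ REPred (· ∈ V) ∧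
      Reduces (enumNames (Eᶜ ∪ V)) (enumNames Cᶜ) ∧
      (¬ REPred (· ∈ Eᶜ ∪ V) ∧ ∀ y : ℕ → ℕ, Reduces {y} (enumNames (Eᶜ ∪ V)) → Computable y) ∧
      ∃ Φ : (ℕ → ℕ) → ℕ, Continuous Φ ∧ (¬ ∃ α ∈ associates Φ, Computable α) ∧
        Reduces (associates Φ) (enumNames (Eᶜ ∪ V)) := by
  obtain ⟨k, hk⟩ := ax_univ hC
  have hk' : ¬ REPred fun c => ¬ ∃ s, ax k s c := fun h =>
    hC' (ComputablePred.computable_iff_re_compl_re'.mpr ⟨hC, h.of_eq fun c => by rw [hk c]⟩)
  have hR : Reduces (associates (Ph k)) (enumNames ((EK k)ᶜ ∪ VK k)) :=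
    Ph_reduces Set.subset_union_left fun x hx => A_disj hx
  have hE : PrimrecPred fun q : ℕ × ℕ => q.1 ∈ El k q.2 := pp_mem (by fun_prop) (by fun_prop)
  have hV : PrimrecPred fun q : ℕ × ℕ => q.1 ∈ Vl k q.2 := pp_mem (by fun_prop) (by fun_prop)
  refine ⟨EK k, VK k, re_exists (P := fun x s => x ∈ El k s) hE.computablePred,
    re_exists (P := fun x s => x ∈ Vl k s) hV.computablePred, A_reduces hk,
    ⟨fun hB => ?_, fun y hy => ?_⟩, Ph k, ?_, Ph_not_computable hk', hR⟩
  · obtain ⟨x, hx, hxB⟩ := no_between hk' hB fun x hx => Or.inl hx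
    exact A_disj hxB hx
  · obtain ⟨e, he⟩ := graph_op hy
    refine reqN k e y (fun a ha => (he _ _).mp ⟨a, ha, rfl, rfl⟩) fun n => ?_
    obtain ⟨a, ha, han, _⟩ := (he n (y n)).mpr rfl
    exact ⟨a, ha, han⟩
  · obtain ⟨F, _, hF⟩ := hR
    obtain ⟨p, hp, _⟩ := exists_name_extending (τ := []) (B := (EK k)ᶜ ∪ VK k)
      (fun k hk => by simp at hk)
    obtain ⟨α, hα, _⟩ := hF p hp
    exact continuous_of_associate hα

/-- The instance `C` = halting set: the statement of Q1, with the same definitions. -/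
theorem q1_instance : ∃ A : Set ℕ,
    (¬ REPred (· ∈ A) ∧ ∀ y : ℕ → ℕ, Reduces {y} (enumNames A) → Computable y) ∧
    ∃ Φ : (ℕ → ℕ) → ℕ, Continuous Φ ∧ (¬ ∃ α ∈ associates Φ, Computable α) ∧
      Reduces (associates Φ) (enumNames A) := by
  have h1 : REPred (· ∈ {n : ℕ | ((Denumerable.ofNat Nat.Partrec.Code n).eval 0).Dom}) :=
    Partrec.comp (ComputablePred.halting_problem_re 0) (Computable.ofNat Nat.Partrec.Code)
  have h2 : ¬ ComputablePred
      (· ∈ {n : ℕ | ((Denumerable.ofNat Nat.Partrec.Code n).eval 0).Dom}) := by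
    rintro ⟨_, h⟩
    refine ComputablePred.halting_problem 0 ⟨inferInstance, (h.comp Computable.encode).of_eq ?_⟩
    intro c
    simp
  obtain ⟨E, V, _, _, _, h3, h4⟩ := three _ h1 h2
  exact ⟨_, h3, h4⟩

end Pool.Agent.MP_9a65c4_lc.Th
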