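import Pool.Agent.Mg.F9a65c4.Ge4114e

/-! A finite injury construction with permitting: r.e. sets `D ⊆ E` and `V`. -/

namespace Pool.Agent.MP_9a65c4_lc.Th

open Filter Classical

noncomputable section

/-- The board: finite parts of `E`, `D`, `V`. -/
abbrev Bd := List ℕ × List ℕ × List ℕ

def bad (e : ℕ) (B : Bd) (x : ℕ) : Prop := x ∈ B.2.1 ∨ (aN x ≤ e ∧ x ∈ B.1 ∧ ¬ x ∈ B.2.2)

def fr (e s : ℕ) (B : Bd) (l : ℕ) : List ℕ :=
  (List.range s).filter fun x => decide (¬ bad e B x ∧ ¬ (x < l ∧ x ∈ B.1 ∧ ¬ x ∈ B.2.2))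

def ns (e s : ℕ) (B : Bd) (st : ℕ × List ℕ) : ℕ × List ℕ :=
  if ∃ x ∈ st.2, bad e B x then (0, [])
  else if st.1 = 0 ∧ incons e s st.2 then st
  else if incons e s (fr e s B 0) then (0, fr e s B 0)
  else if tot e s (fr e s B st.1) st.1 then (st.1 + 1, fr e s B st.1)
  else st

def nN (s : ℕ) (S : Bd × List (ℕ × List ℕ)) : List (ℕ × List ℕ) :=
  (List.range s).map fun e => ns e s S.1 (S.2.getD e (0, []))

def perm (k s x : ℕ) : Prop := ∃ c < x + 1, ax k (s + 1) c ∧ ¬ ax k s c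

def stp (k s : ℕ) (S : Bd × List (ℕ × List ℕ)) : Bd × List (ℕ × List ℕ) :=
  ((S.1.1 ++ (List.range s).filter fun x => decide (ax (aN x) s x ∧ perm k s x ∧
      ∀ y ∈ S.1.2.1, ¬ aN y = aN x),
    S.1.2.1 ++ (List.range s).filter fun x => decide (x ∈ S.1.1 ∧ ¬ x ∈ S.1.2.2 ∧
      (∀ y ∈ S.1.2.1, ¬ aN y = aN x) ∧ ∀ e < aN x, ¬ x ∈ ((nN s S).getD e (0, [])).2),
    S.1.2.2 ++ (List.range (s + 1)).filter fun x => decide (∃ e < aN x,
      ((nN s S).getD e (0, [])).1 = 0 ∧ x ∈ ((nN s S).getD e (0, [])).2)), nN s S)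

def sta (k s : ℕ) : Bd × List (ℕ × List ℕ) := Nat.rec (([], [], []), []) (fun s S => stp k s S) s

def Bs (k s : ℕ) : Bd := (sta k s).1
def El (k s : ℕ) : List ℕ := (Bs k s).1
def Dk (k s : ℕ) : List ℕ := (Bs k s).2.1
def Vl (k s : ℕ) : List ℕ := (Bs k s).2.2
def Nk (k s e : ℕ) : ℕ × List ℕ := (sta k s).2.getD e (0, [])

section prim
variable {α : Type*} [Primcodable α]

theorem pp_bad {f g : α → ℕ} {B : α → Bd} (hf : Primrec f) (hB : Primrec B) (hg : Primrec g) :
    PrimrecPred fun a => bad (f a) (B a) (g a) :=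
  (pp_mem hg (by fun_prop)).or ((pp_le (by fun_prop) hf).and
    ((pp_mem hg (by fun_prop)).and (pp_mem hg (by fun_prop)).not))

@[fun_prop] theorem pr_fr {f g l : α → ℕ} {B : α → Bd} (hf : Primrec f) (hg : Primrec g)
    (hB : Primrec B) (hl : Primrec l) : Primrec fun a => fr (f a) (g a) (B a) (l a) :=
  pr_filter (by fun_prop) ((pp_bad (by fun_prop) (by fun_prop) (by fun_prop)).not.and
    ((pp_lt (by fun_prop) (by fun_prop)).and ((pp_mem (by fun_prop) (by fun_prop)).and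
      (pp_mem (by fun_prop) (by fun_prop)).not)).not)

@[fun_prop] theorem pr_ns {f g : α → ℕ} {B : α → Bd} {st : α → ℕ × List ℕ}
    (hf : Primrec f) (hg : Primrec g) (hB : Primrec B) (hst : Primrec st) :
    Primrec fun a => ns (f a) (g a) (B a) (st a) := by
  unfold ns
  refine Primrec.ite (pp_ex_mem (by fun_prop) (pp_bad (by fun_prop) (by fun_prop) (by fun_prop)))
    (by fun_prop) ?_
  refine Primrec.ite ((pp_eq (by fun_prop) (by fun_prop)).and (pp_incons hf hg (by fun_prop)))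
    hst ?_
  refine Primrec.ite (pp_incons hf hg (by fun_prop)) (by fun_prop) ?_
  exact Primrec.ite (pp_tot hf hg (by fun_prop) (by fun_prop)) (by fun_prop) hst

@[fun_prop] theorem pr_nN {f : α → ℕ} {S : α → Bd × List (ℕ × List ℕ)}
    (hf : Primrec f) (hS : Primrec S) : Primrec fun a => nN (f a) (S a) := by
  unfold nN
  exact pr_map (by fun_prop) (by fun_prop)

theorem pp_perm (k : ℕ) {f g : α → ℕ} (hf : Primrec f) (hg : Primrec g) :
    PrimrecPred fun a => perm k (f a) (g a) :=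
  pp_ex_lt (by fun_prop) ((pp_ax (by fun_prop) (by fun_prop) (by fun_prop)).and
    (pp_ax (by fun_prop) (by fun_prop) (by fun_prop)).not)

theorem pr_stp (k : ℕ) {f : α → ℕ} {S : α → Bd × List (ℕ × List ℕ)}
    (hf : Primrec f) (hS : Primrec S) : Primrec fun a => stp k (f a) (S a) := by
  unfold stp
  refine pr_pair (pr_pair (pr_append (by fun_prop) (pr_filter (by fun_prop) ?_))
    (pr_pair (pr_append (by fun_prop) (pr_filter (by fun_prop) ?_))
      (pr_append (by fun_prop) (pr_filter (by fun_prop) ?_)))) (by fun_prop)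
  · exact (pp_ax (by fun_prop) (by fun_prop) (by fun_prop)).and
      ((pp_perm k (by fun_prop) (by fun_prop)).and
        (pp_all_mem (by fun_prop) (pp_eq (by fun_prop) (by fun_prop)).not))
  · refine (pp_mem (by fun_prop) (by fun_prop)).and ((pp_mem (by fun_prop) (by fun_prop)).not.and
      (PrimrecPred.and ?_ ?_))
    · exact pp_all_mem (by fun_prop) (pp_eq (by fun_prop) (by fun_prop)).not
    · exact pp_all_lt (by fun_prop) (pp_mem (by fun_prop) (by fun_prop)).not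
  · exact pp_ex_lt (by fun_prop) ((pp_eq (by fun_prop) (by fun_prop)).and
      (pp_mem (by fun_prop) (by fun_prop)))

theorem pr_sta (k : ℕ) : Primrec (sta k) :=
  Primrec.nat_rec₁ _ (pr_stp k Primrec.fst Primrec.snd)

@[fun_prop] theorem pr_El (k : ℕ) : Primrec (El k) :=
  Primrec.fst.comp (Primrec.fst.comp (pr_sta k))
@[fun_prop] theorem pr_Dk (k : ℕ) : Primrec (Dk k) :=
  Primrec.fst.comp (Primrec.snd.comp (Primrec.fst.comp (pr_sta k)))
@[fun_prop] theorem pr_Vl (k : ℕ) : Primrec (Vl k) :=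
  Primrec.snd.comp (Primrec.snd.comp (Primrec.fst.comp (pr_sta k)))

@[fun_prop] theorem pr_Nk (k : ℕ) {f g : α → ℕ} (hf : Primrec f) (hg : Primrec g) :
    Primrec fun a => Nk k (f a) (g a) :=
  pr_getD _ (Primrec.snd.comp ((pr_sta k).comp hf)) hg

end prim

variable {k : ℕ}

theorem Nk_zero (e : ℕ) : Nk k 0 e = (0, []) := rfl

theorem sta_length (s : ℕ) : (sta k s).2.length ≤ s := by
  cases s with
  | zero => simp [sta]
  | succ s => simp [sta, stp, nN]

theorem Nk_succ (s e : ℕ) : Nk k (s + 1) e = ns e s (Bs k s) (Nk k s e) := by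
  by_cases h : e < s
  · simp [Nk, sta, stp, nN, Bs, h]
  · have h1 : Nk k (s + 1) e = (0, []) := by
      simp [Nk, sta, stp, nN, not_lt.mp h]
    have h2 : Nk k s e = (0, []) := by
      have := sta_length (k := k) s
      simp only [Nk, List.getD_eq_getElem?_getD]
      rw [List.getElem?_eq_none (by omega)]
      rfl
    have h3 : ∀ U, ¬ incons e s U := by
      rintro U ⟨a, _, b, _, ha, _⟩
      exact h ha.1.1
    have h4 : ∀ U l, ¬ tot e s U l := by
      intro U l ht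
      obtain ⟨a, _, ha, _⟩ := ht 0 (by omega)
      exact h ha.1.1
    rw [h1, h2]
    simp [ns, h3, h4]

theorem mem_fr {e s l x : ℕ} {B : Bd} :
    x ∈ fr e s B l ↔ x < s ∧ ¬ bad e B x ∧ ¬ (x < l ∧ x ∈ B.1 ∧ ¬ x ∈ B.2.2) := by
  simp only [fr, List.mem_filter, List.mem_range, decide_eq_true_iff]

theorem bad_iff {e s x : ℕ} :
    bad e (Bs k s) x ↔ x ∈ Dk k s ∨ (aN x ≤ e ∧ x ∈ El k s ∧ x ∉ Vl k s) := Iff.rfl

theorem mem_fr' {e s l x : ℕ} : x ∈ fr e s (Bs k s) l ↔
    x < s ∧ ¬ bad e (Bs k s) x ∧ ¬ (x < l ∧ x ∈ El k s ∧ x ∉ Vl k s) := mem_fr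

theorem Nk_bound {e s x : ℕ} (h : x ∈ (Nk k s e).2) : x < s := by
  induction s with
  | zero => simp [Nk_zero] at h
  | succ s ih =>
    rw [Nk_succ] at h
    unfold ns at h
    split_ifs at h with h1 h2 h3 h4
    · simp at h
    · exact (ih h).trans (Nat.lt_succ_self s)
    · exact (mem_fr.mp h).1.trans (Nat.lt_succ_self s)
    · exact (mem_fr.mp h).1.trans (Nat.lt_succ_self s)
    · exact (ih h).trans (Nat.lt_succ_self s)

theorem mem_El_succ (s x : ℕ) : x ∈ El k (s + 1) ↔ x ∈ El k s ∨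
    (ax (aN x) s x ∧ perm k s x ∧ ∀ y ∈ Dk k s, ¬ aN y = aN x) := by
  have : El k (s + 1) = El k s ++ (List.range s).filter fun x => decide (ax (aN x) s x ∧
      perm k s x ∧ ∀ y ∈ Dk k s, ¬ aN y = aN x) := rfl
  rw [this, List.mem_append, List.mem_filter, List.mem_range, decide_eq_true_iff]
  exact ⟨fun h => h.imp id fun h => h.2, fun h => h.imp id fun h => ⟨ax_lt h.1, h⟩⟩

theorem El_ax {s x : ℕ} (h : x ∈ El k s) : ax (aN x) s x := by
  induction s with
  | zero => exact absurd h List.not_mem_nil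
  | succ s ih =>
    rcases (mem_El_succ s x).mp h with h | h
    · exact ax_mono (Nat.le_succ s) (ih h)
    · exact ax_mono (Nat.le_succ s) h.1

theorem mem_Dk_succ (s x : ℕ) : x ∈ Dk k (s + 1) ↔ x ∈ Dk k s ∨
    (x ∈ El k s ∧ x ∉ Vl k s ∧ (∀ y ∈ Dk k s, ¬ aN y = aN x) ∧
      ∀ e < aN x, x ∉ (Nk k (s + 1) e).2) := by
  have : Dk k (s + 1) = Dk k s ++ (List.range s).filter fun x => decide (x ∈ El k s ∧
      ¬ x ∈ Vl k s ∧ (∀ y ∈ Dk k s, ¬ aN y = aN x) ∧
      ∀ e < aN x, ¬ x ∈ (Nk k (s + 1) e).2) := rfl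
  rw [this, List.mem_append, List.mem_filter, List.mem_range, decide_eq_true_iff]
  exact ⟨fun h => h.imp id fun h => h.2, fun h => h.imp id fun h => ⟨ax_lt (El_ax h.1), h⟩⟩

theorem mem_Vl_succ (s x : ℕ) : x ∈ Vl k (s + 1) ↔ x ∈ Vl k s ∨
    ∃ e < aN x, (Nk k (s + 1) e).1 = 0 ∧ x ∈ (Nk k (s + 1) e).2 := by
  have : Vl k (s + 1) = Vl k s ++ (List.range (s + 1)).filter fun x => decide (∃ e < aN x,
      (Nk k (s + 1) e).1 = 0 ∧ x ∈ (Nk k (s + 1) e).2) := rfl
  rw [this, List.mem_append, List.mem_filter, List.mem_range, decide_eq_true_iff]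
  refine ⟨fun h => h.imp id fun h => h.2, fun h => h.imp id fun h => ⟨?_, h⟩⟩
  obtain ⟨e, _, _, he⟩ := h
  exact Nk_bound he

theorem El_mono {s t x : ℕ} (hst : s ≤ t) (h : x ∈ El k s) : x ∈ El k t := by
  induction hst with
  | refl => exact h
  | step _ ih => exact (mem_El_succ _ _).mpr (Or.inl ih)

theorem Dk_mono {s t x : ℕ} (hst : s ≤ t) (h : x ∈ Dk k s) : x ∈ Dk k t := by
  induction hst with
  | refl => exact h
  | step _ ih => exact (mem_Dk_succ _ _).mpr (Or.inl ih)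

theorem Vl_mono {s t x : ℕ} (hst : s ≤ t) (h : x ∈ Vl k s) : x ∈ Vl k t := by
  induction hst with
  | refl => exact h
  | step _ ih => exact (mem_Vl_succ _ _).mpr (Or.inl ih)

theorem Dk_sub {s x : ℕ} (h : x ∈ Dk k s) : x ∈ El k s := by
  induction s with
  | zero => exact absurd h List.not_mem_nil
  | succ s ih =>
    rcases (mem_Dk_succ s x).mp h with h | h
    · exact El_mono (Nat.le_succ s) (ih h)
    · exact El_mono (Nat.le_succ s) h.1

theorem ns_disj {e s x : ℕ} {B : Bd} {st : ℕ × List ℕ} (h : x ∈ (ns e s B st).2) :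
    ¬ bad e B x := by
  unfold ns at h
  split_ifs at h with h1 h2 h3 h4
  · simp at h
  · exact fun hx => h1 ⟨x, h, hx⟩
  · exact (mem_fr.mp h).2.1
  · exact (mem_fr.mp h).2.1
  · exact fun hx => h1 ⟨x, h, hx⟩

theorem Nk_disj {e s x : ℕ} (h : x ∈ (Nk k (s + 1) e).2) : ¬ bad e (Bs k s) x := by
  rw [Nk_succ] at h
  exact ns_disj h

theorem Vl_disj {s x : ℕ} (h : x ∈ Vl k s) : x ∉ Dk k s := by
  induction s with
  | zero => exact absurd h List.not_mem_nil
  | succ s ih =>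
    intro hD
    rcases (mem_Vl_succ s x).mp h with h | ⟨e, he, _, h⟩
    · rcases (mem_Dk_succ s x).mp hD with hD | hD
      · exact ih h hD
      · exact hD.2.1 h
    · rcases (mem_Dk_succ s x).mp hD with hD | hD
      · exact Nk_disj h (Or.inl hD)
      · exact hD.2.2.2 e he h

theorem Nk_inv {e s n : ℕ} (h : n < (Nk k s e).1) :
    ∃ a, avail e s (Nk k s e).2 a ∧ aN a = n := by
  induction s with
  | zero => simp [Nk_zero] at h
  | succ s ih =>
    rw [Nk_succ] at h ⊢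
    unfold ns at h ⊢
    split_ifs at h ⊢ with h1 h2 h3 h4
    · simp at h
    · obtain ⟨a, ha, ha'⟩ := ih h
      exact ⟨a, avail_mono (Nat.le_succ s) (fun _ h => h) ha, ha'⟩
    · simp at h
    · obtain ⟨a, _, ha, ha'⟩ := h4 n h
      exact ⟨a, avail_mono (Nat.le_succ s) (fun _ h => h) ha, ha'⟩
    · obtain ⟨a, ha, ha'⟩ := ih h
      exact ⟨a, avail_mono (Nat.le_succ s) (fun _ h => h) ha, ha'⟩

end

end Pool.Agent.MP_9a65c4_lc.Th
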