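import Pool.Agent.MP_9a65c4_lc.Three

/-! Verification of the construction. -/

namespace Pool.Agent.MP_9a65c4_lc.Th

open Filter Classical

def EK (k : ℕ) : Set ℕ := {x | ∃ s, x ∈ El k s}
def DK (k : ℕ) : Set ℕ := {x | ∃ s, x ∈ Dk k s}
def VK (k : ℕ) : Set ℕ := {x | ∃ s, x ∈ Vl k s}

variable {k : ℕ}

theorem A_disj {x : ℕ} (h : x ∈ (EK k)ᶜ ∪ VK k) : x ∉ DK k := by
  rintro ⟨s, hs⟩
  rcases h with h | ⟨t, ht⟩
  · exact h ⟨s, Dk_sub hs⟩
  · exact Vl_disj (Vl_mono (le_max_left t s) ht) (Dk_mono (le_max_right t s) hs)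

theorem col_stable (k e : ℕ) :
    ∀ᶠ s in atTop, ∀ x, aN x ≤ e → x ∈ Dk k (s + 1) → x ∈ Dk k s := by
  have h : ∀ j, ∀ᶠ s in atTop, ∀ x, aN x = j → x ∈ Dk k (s + 1) → x ∈ Dk k s := by
    intro j
    by_cases hj : ∃ t y, y ∈ Dk k t ∧ aN y = j
    · obtain ⟨t, y, hy, hyj⟩ := hj
      filter_upwards [eventually_ge_atTop t] with s hs x hx hxs
      rcases (mem_Dk_succ _ _).mp hxs with h | h
      · exact h
      · exact absurd (hyj.trans hx.symm) (h.2.2.1 y (Dk_mono hs hy))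
    · exact Eventually.of_forall fun s x hx hxs => absurd ⟨s + 1, x, hxs, hx⟩ hj
  have h2 : ∀ᶠ s in atTop, ∀ j ∈ Finset.range (e + 1), ∀ x, aN x = j →
      x ∈ Dk k (s + 1) → x ∈ Dk k s := (eventually_all_finset _).mpr fun j _ => h j
  filter_upwards [h2] with s hs x hx
  exact hs _ (Finset.mem_range.mpr (by omega)) x rfl

/-- Column `j` of `E` is finite. -/
def ColFin (k j : ℕ) : Prop := ∃ b, ∀ x, aN x = j → x ∈ EK k → x < b

/-- Requirement `e` is never injured from stage `s1` on. -/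
def Qt (k e s1 : ℕ) : Prop := ∀ s ≥ s1, ∀ x ∈ (Nk k s e).2, ¬ bad e (Bs k s) x

theorem exists_qt {e : ℕ} (h : ∀ j ≤ e, ColFin k j) : ∃ s1, Qt k e s1 := by
  have h1 : ∀ᶠ s in atTop, ∀ j ∈ Finset.range (e + 1), ∀ x, aN x = j → x ∈ EK k →
      x ∈ El k s := by
    rw [eventually_all_finset]
    intro j hj
    obtain ⟨b, hb⟩ := h j (by have := Finset.mem_range.mp hj; omega)
    have h2 : ∀ᶠ s in atTop, ∀ x ∈ Finset.range b, x ∈ EK k → x ∈ El k s := by
      rw [eventually_all_finset]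
      intro x _
      by_cases hx : x ∈ EK k
      · obtain ⟨t, ht⟩ := hx
        filter_upwards [eventually_ge_atTop t] with s hs _ using El_mono hs ht
      · exact Eventually.of_forall fun s hx' => absurd hx' hx
    filter_upwards [h2] with s hs x hx hE using hs x (Finset.mem_range.mpr (hb x hx hE)) hE
  obtain ⟨s0, hs0⟩ := eventually_atTop.mp (h1.and (col_stable k e))
  refine ⟨s0 + 1, fun s hs x hx hbad => ?_⟩
  obtain ⟨t, rfl⟩ : ∃ t, s = t + 1 := ⟨s - 1, by omega⟩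
  have h2 := Nk_disj hx
  obtain ⟨h3, h4⟩ := hs0 t (by omega)
  rcases bad_iff.mp hbad with hD | ⟨h5, h6, h7⟩
  · rcases (mem_Dk_succ _ _).mp hD with h | h
    · exact h2 (Or.inl h)
    · by_cases hc : aN x ≤ e
      · exact h2 (Or.inl (h4 x hc hD))
      · exact h.2.2.2 e (by omega) hx
  · exact h2 (bad_iff.mpr (Or.inr ⟨h5, h3 _ (Finset.mem_range.mpr (by omega)) x rfl ⟨_, h6⟩,
      fun hV => h7 (Vl_mono (Nat.le_succ t) hV)⟩))

theorem frozen {e s1 s : ℕ} (hq : Qt k e s1) (hs : s ≥ s1) (h0 : (Nk k s e).1 = 0)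
    (hi : incons e s (Nk k s e).2) : ∀ t ≥ s, Nk k t e = Nk k s e := by
  intro t ht
  induction ht with
  | refl => rfl
  | @step t ht ih =>
    rw [Nk_succ]
    unfold ns
    rw [if_neg, if_pos, ih]
    · rw [ih]
      exact ⟨h0, incons_mono ht hi⟩
    · rintro ⟨x, hx, hxD⟩
      exact hq t (le_trans hs ht) x hx hxD

/-- No inconsistency is ever seen from stage `s1` on. -/
def Cs (k e s1 : ℕ) : Prop := ∀ s ≥ s1, ¬ incons e s (fr e s (Bs k s) 0)

theorem cs_of_not {e s1 : ℕ} (hq : Qt k e s1)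
    (h : ∀ s ≥ s1, ¬ ((Nk k s e).1 = 0 ∧ incons e s (Nk k s e).2)) : Cs k e s1 := by
  intro s hs hi
  refine h (s + 1) (by omega) ?_
  rw [Nk_succ]
  unfold ns
  rw [if_neg, if_neg (h s hs), if_pos hi]
  · exact ⟨rfl, incons_mono (Nat.le_succ s) hi⟩
  · rintro ⟨x, hx, hxD⟩
    exact hq s hs x hx hxD

theorem sub_fr {e s1 s : ℕ} (hq : Qt k e s1) (hs : s ≥ s1) :
    ∀ x ∈ (Nk k s e).2, x ∈ fr e s (Bs k s) 0 := fun x hx =>
  mem_fr.mpr ⟨Nk_bound hx, hq s hs x hx, by simp⟩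

theorem cs_step {e s1 s : ℕ} (hq : Qt k e s1) (hc : Cs k e s1) (hs : s ≥ s1) :
    Nk k (s + 1) e = if tot e s (fr e s (Bs k s) (Nk k s e).1) (Nk k s e).1 then
      ((Nk k s e).1 + 1, fr e s (Bs k s) (Nk k s e).1) else Nk k s e := by
  rw [Nk_succ]
  unfold ns
  rw [if_neg, if_neg, if_neg (hc s hs)]
  · rintro ⟨_, a, ha, b, hb, h1, h2, h3⟩
    exact hc s hs ⟨a, ha, b, hb, avail_mono le_rfl (sub_fr hq hs) h1,
      avail_mono le_rfl (sub_fr hq hs) h2, h3⟩
  · rintro ⟨x, hx, hxD⟩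
    exact hq s hs x hx hxD

theorem level_mono {e s1 s t : ℕ} (hq : Qt k e s1) (hc : Cs k e s1) (hs : s ≥ s1) (ht : s ≤ t) :
    (Nk k s e).1 ≤ (Nk k t e).1 := by
  induction ht with
  | refl => exact le_rfl
  | @step t ht ih =>
    rw [cs_step hq hc (le_trans hs ht)]
    split_ifs
    · exact ih.trans (Nat.le_succ _)
    · exact ih

theorem const_of_not_tot {e s1 t : ℕ} (hq : Qt k e s1) (hc : Cs k e s1) (ht : t ≥ s1)
    (h : ∀ s ≥ t, ¬ tot e s (fr e s (Bs k s) (Nk k s e).1) (Nk k s e).1) :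
    ∀ s ≥ t, Nk k s e = Nk k t e := by
  intro s hs
  induction hs with
  | refl => rfl
  | @step s hs ih => rw [cs_step hq hc (le_trans ht hs), if_neg (h s hs), ih]

theorem level_unbounded {e s1 : ℕ} (hq : Qt k e s1) (hc : Cs k e s1)
    (h : ∀ t, ∃ s ≥ t, tot e s (fr e s (Bs k s) (Nk k s e).1) (Nk k s e).1) (n : ℕ) :
    ∃ s ≥ s1, n ≤ (Nk k s e).1 := by
  induction n with
  | zero => exact ⟨s1, le_rfl, Nat.zero_le _⟩
  | succ n ih =>
    obtain ⟨s, hs, hn⟩ := ih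
    obtain ⟨t, ht, htot⟩ := h s
    refine ⟨t + 1, by omega, ?_⟩
    rw [cs_step hq hc (le_trans hs ht), if_pos htot]
    exact Nat.succ_le_succ (hn.trans (level_mono hq hc hs ht))

theorem restraint_finite {e s1 : ℕ} (hq : Qt k e s1) :
    ∃ b, ∀ x ≥ b, x ∈ EK k → x ∉ VK k → ∀ᶠ s in atTop, x ∉ (Nk k s e).2 := by
  have hconst : ∀ t, (∀ s ≥ t, Nk k s e = Nk k t e) →
      ∃ b, ∀ x ≥ b, x ∈ EK k → x ∉ VK k → ∀ᶠ s in atTop, x ∉ (Nk k s e).2 := by
    intro t ht
    refine ⟨t, fun x hx _ _ => ?_⟩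
    filter_upwards [eventually_ge_atTop t] with s hs hxs
    rw [ht s hs] at hxs
    exact absurd (Nk_bound hxs) (by omega)
  by_cases hA : ∃ s ≥ s1, (Nk k s e).1 = 0 ∧ incons e s (Nk k s e).2
  · obtain ⟨s, hs, h0, hi⟩ := hA
    exact hconst s (frozen hq hs h0 hi)
  have hc := cs_of_not hq fun s hs h => hA ⟨s, hs, h⟩
  by_cases hB : ∀ t, ∃ s ≥ t, tot e s (fr e s (Bs k s) (Nk k s e).1) (Nk k s e).1
  · refine ⟨0, fun x _ hx hV => ?_⟩
    obtain ⟨t0, ht0⟩ := hx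
    obtain ⟨t1, ht1, hl⟩ := level_unbounded hq hc hB (x + 1)
    obtain ⟨s, hs, htot⟩ := hB (max t0 t1)
    have hs0 : t0 ≤ s := le_trans (le_max_left _ _) hs
    have hs1 : t1 ≤ s := le_trans (le_max_right _ _) hs
    have key : ∀ t ≥ s, x ∉ fr e t (Bs k t) (Nk k t e).1 := by
      intro t ht hx
      refine (mem_fr'.mp hx).2.2 ⟨?_, El_mono (hs0.trans ht) ht0, fun h => hV ⟨t, h⟩⟩
      exact lt_of_lt_of_le (Nat.lt_succ_self x) (hl.trans (level_mono hq hc ht1 (hs1.trans ht)))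
    refine eventually_atTop.mpr ⟨s + 1, fun t ht => ?_⟩
    induction ht with
    | refl =>
      rw [cs_step hq hc (le_trans ht1 hs1), if_pos htot]
      exact key s le_rfl
    | @step t ht ih =>
      have ht' : s ≤ t := le_trans (Nat.le_succ s) ht
      rw [cs_step hq hc (le_trans ht1 (hs1.trans ht'))]
      split_ifs
      · exact key t ht'
      · exact ih
  · push Not at hB
    obtain ⟨t, ht⟩ := hB
    exact hconst (max t s1) (const_of_not_tot hq hc (le_max_right _ _)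
      fun s hs => ht s (le_trans (le_max_left _ _) hs))

theorem zero_finite {e s1 : ℕ} (hq : Qt k e s1) :
    ∃ b, ∀ s x, (Nk k s e).1 = 0 → x ∈ (Nk k s e).2 → x < b := by
  have key : ∃ t, ∀ s ≥ t, (Nk k s e).1 = 0 → Nk k s e = Nk k t e := by
    by_cases hA : ∃ s ≥ s1, (Nk k s e).1 = 0 ∧ incons e s (Nk k s e).2
    · obtain ⟨s, hs, h0, hi⟩ := hA
      exact ⟨s, fun t ht _ => frozen hq hs h0 hi t ht⟩
    have hc := cs_of_not hq fun s hs h => hA ⟨s, hs, h⟩
    refine ⟨s1, fun s hs => ?_⟩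
    induction hs with
    | refl => exact fun _ => rfl
    | @step s hs ih =>
      rw [cs_step hq hc hs]
      split_ifs
      · intro h
        simp at h
      · exact ih
  obtain ⟨t, ht⟩ := key
  refine ⟨t, fun s x h0 hx => ?_⟩
  by_cases hs : s ≥ t
  · rw [ht s hs h0] at hx
    exact Nk_bound hx
  · exact (Nk_bound hx).trans (by omega)

theorem V_source {s x : ℕ} (h : x ∈ Vl k s) :
    ∃ e < aN x, ∃ t, (Nk k t e).1 = 0 ∧ x ∈ (Nk k t e).2 := by
  induction s with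
  | zero => exact absurd h List.not_mem_nil
  | succ s ih =>
    rcases (mem_Vl_succ s x).mp h with h | ⟨e, he, h⟩
    · exact ih h
    · exact ⟨e, he, s + 1, h⟩

theorem colFin (k j : ℕ) : ColFin k j := by
  induction j using Nat.strong_induction_on with
  | _ j ih =>
  by_cases hD : ∃ t y, y ∈ Dk k t ∧ aN y = j
  · obtain ⟨t, y, hy, hyj⟩ := hD
    refine ⟨t, fun x hx ⟨s, hs⟩ => ?_⟩
    have key : ∀ s ≥ t, x ∈ El k s → x ∈ El k t := by
      intro s hs
      induction hs with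
      | refl => exact id
      | @step s hs ih =>
        intro h
        rcases (mem_El_succ s x).mp h with h | h
        · exact ih h
        · exact absurd (hyj.trans hx.symm) (h.2.2 y (Dk_mono hs hy))
    exact ax_lt (El_ax (key (max s t) (le_max_right _ _) (El_mono (le_max_left _ _) hs)))
  have h1 : ∀ e, ∃ b, e < j → (∀ x ≥ b, x ∈ EK k → x ∉ VK k → ∀ᶠ s in atTop, x ∉ (Nk k s e).2) ∧
      ∀ s x, (Nk k s e).1 = 0 → x ∈ (Nk k s e).2 → x < b := by
    intro e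
    by_cases he : e < j
    · obtain ⟨s1, hq⟩ := exists_qt (k := k) (e := e) fun i hi => ih i (by omega)
      obtain ⟨b, hb⟩ := restraint_finite hq
      obtain ⟨b', hb'⟩ := zero_finite hq
      exact ⟨max b b', fun _ => ⟨fun x hx => hb x (le_trans (le_max_left _ _) hx),
        fun s x h0 hx => lt_of_lt_of_le (hb' s x h0 hx) (le_max_right _ _)⟩⟩
    · exact ⟨0, fun h => absurd h he⟩
  choose b hb using h1
  refine ⟨(Finset.range j).sup b, fun x hxj hxE => ?_⟩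
  by_contra hx
  have hbx : ∀ e < j, b e ≤ x := fun e he =>
    le_trans (Finset.le_sup (f := b) (Finset.mem_range.mpr he)) (not_lt.mp hx)
  have hV : x ∉ VK k := by
    rintro ⟨s, hs⟩
    obtain ⟨e, he, t, h0, ht⟩ := V_source hs
    rw [hxj] at he
    exact absurd ((hb e he).2 t x h0 ht) (not_lt.mpr (hbx e he))
  have h2 : ∀ᶠ s in atTop, ∀ e ∈ Finset.range j, x ∉ (Nk k s e).2 := by
    rw [eventually_all_finset]
    intro e he
    have he' := Finset.mem_range.mp he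
    exact (hb e he').1 x (hbx e he') hxE hV
  obtain ⟨t0, ht0⟩ := hxE
  obtain ⟨t1, ht1⟩ := eventually_atTop.mp h2
  refine hD ⟨max t0 t1 + 1, x, (mem_Dk_succ _ _).mpr (Or.inr ⟨El_mono (le_max_left _ _) ht0,
    fun h => hV ⟨_, h⟩, fun y hy h => hD ⟨_, y, hy, h.trans hxj⟩, fun e he => ?_⟩), hxj⟩
  rw [hxj] at he
  exact ht1 _ (by omega) e (Finset.mem_range.mpr he)

theorem not_perm {s x : ℕ} (h : ∀ t ≥ s, ¬ perm k t x) {c t : ℕ} (hc : c ≤ x) (ht : ax k t c) :
    ax k s c := by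
  by_contra hn
  have key : ∀ t ≥ s, ¬ ax k t c := by
    intro t ht
    induction ht with
    | refl => exact hn
    | @step t ht ih => exact fun h' => h t ht ⟨c, by omega, h', ih⟩
  exact key (max s t) (le_max_left _ _) (ax_mono (le_max_right _ _) ht)

/-- No r.e. set lies between the complement of `E` and the complement of `D`. -/
theorem no_between (hk : ¬ REPred fun c => ¬ ∃ s, ax k s c) {P : ℕ → Prop} (hP : REPred P)
    (h1 : ∀ x, x ∉ EK k → P x) : ∃ x ∈ DK k, P x := by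
  obtain ⟨j, hj⟩ := ax_univ hP
  by_contra hno
  have hD : ∀ s, ∀ y ∈ Dk k s, ¬ aN y = j := by
    intro s y hy hyj
    refine hno ⟨y, ⟨s, hy⟩, (hj y).mpr ⟨s, ?_⟩⟩
    rw [← hyj]
    exact El_ax (Dk_sub hy)
  obtain ⟨b, hb⟩ := colFin k j
  have hcol : ∀ c, aN (Nat.pair j (b + c)) = j := fun c => by simp [aN]
  have hE : ∀ c, Nat.pair j (b + c) ∉ EK k := fun c h =>
    absurd (hb _ (hcol c) h) (by have := Nat.right_le_pair j (b + c); omega)
  have hQ : PrimrecPred fun q : ℕ × ℕ => ax j q.2 (Nat.pair j (b + q.1)) ∧ ¬ ax k q.2 q.1 :=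
    (pp_ax (by fun_prop) (by fun_prop) (by fun_prop)).and
      (pp_ax (by fun_prop) (by fun_prop) (by fun_prop)).not
  refine hk ((re_exists (P := fun c s => ax j s (Nat.pair j (b + c)) ∧ ¬ ax k s c)
    hQ.computablePred).of_eq fun c => ⟨?_, fun hc => ?_⟩)
  · rintro ⟨s, hs, hc⟩ ⟨t, ht⟩
    refine hc (not_perm (x := Nat.pair j (b + c)) (fun u hu hp => hE c ⟨u + 1, ?_⟩)
      (by have := Nat.right_le_pair j (b + c); omega) ht)
    refine (mem_El_succ _ _).mpr (Or.inr ⟨?_, hp, ?_⟩)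
    · rw [hcol]
      exact ax_mono hu hs
    · rw [hcol]
      exact hD u
  · obtain ⟨s, hs⟩ := (hj _).mp (h1 _ (hE c))
    exact ⟨s, hs, fun h => hc ⟨s, h⟩⟩

theorem eventually_av {e a : ℕ} (l : ℕ) (h : Op e ((EK k)ᶜ ∪ VK k) a) :
    ∀ᶠ s in atTop, a < s ∧ avail e s (fr e s (Bs k s) l) a := by
  obtain ⟨⟨t, ht⟩, hU⟩ := h
  have h1 : ∀ᶠ s in atTop, ∀ x ∈ (aU a).toFinset, x < s ∧ ¬ (x ∈ El k s ∧ x ∉ Vl k s) := by
    rw [eventually_all_finset]
    intro x hx
    rcases hU x (List.mem_toFinset.mp hx) with h | ⟨u, hu⟩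
    · filter_upwards [eventually_gt_atTop x] with s hs using ⟨hs, fun h' => h ⟨s, h'.1⟩⟩
    · filter_upwards [eventually_gt_atTop x, eventually_ge_atTop u] with s hs hs' using
        ⟨hs, fun h' => h'.2 (Vl_mono hs' hu)⟩
  filter_upwards [h1, eventually_ge_atTop t] with s hs hst
  refine ⟨ax_lt (ax_mono hst ht), ax_mono hst ht, fun x hx => ?_⟩
  obtain ⟨h2, h3⟩ := hs x (List.mem_toFinset.mpr hx)
  refine mem_fr'.mpr ⟨h2, fun hb => ?_, fun hE => h3 hE.2⟩
  rcases bad_iff.mp hb with hb | hb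
  · exact A_disj (hU x hx) ⟨s, hb⟩
  · exact h3 hb.2

theorem reqN (k e : ℕ) (y : ℕ → ℕ)
    (hsv : ∀ a, Op e ((EK k)ᶜ ∪ VK k) a → aV a = y (aN a))
    (htot : ∀ n, ∃ a, Op e ((EK k)ᶜ ∪ VK k) a ∧ aN a = n) : Computable y := by
  obtain ⟨s1, hq⟩ := exists_qt (k := k) (e := e) fun j _ => colFin k j
  have hA : ∀ s ≥ s1, ¬ ((Nk k s e).1 = 0 ∧ incons e s (Nk k s e).2) := by
    rintro s hs ⟨h0, hi⟩
    have hf := frozen hq hs h0 hi
    have hU : ∀ x ∈ (Nk k s e).2, x ∈ (EK k)ᶜ ∪ VK k := by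
      intro x hx
      by_cases hc : e < aN x
      · refine Or.inr ⟨s + 1, (mem_Vl_succ _ _).mpr (Or.inr ⟨e, hc, ?_⟩)⟩
        rw [hf _ (Nat.le_succ s)]
        exact ⟨h0, hx⟩
      · by_contra hn
        have h1 : x ∈ EK k := by
          by_contra h1
          exact hn (Or.inl h1)
        obtain ⟨t, ht⟩ := h1
        refine hq (max s t) (le_trans hs (le_max_left _ _)) x ?_ (bad_iff.mpr (Or.inr
          ⟨by omega, El_mono (le_max_right _ _) ht, fun h => hn (Or.inr ⟨_, h⟩)⟩))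
        rw [hf _ (le_max_left _ _)]
        exact hx
    obtain ⟨a, _, b, _, ha, hb, hn, hv⟩ := hi
    apply hv
    rw [hsv a ⟨⟨s, ha.1⟩, fun x hx => hU x (ha.2 x hx)⟩,
      hsv b ⟨⟨s, hb.1⟩, fun x hx => hU x (hb.2 x hx)⟩, hn]
  have hc := cs_of_not hq hA
  have hB : ∀ t, ∃ s ≥ t, tot e s (fr e s (Bs k s) (Nk k s e).1) (Nk k s e).1 := by
    by_contra hB
    push Not at hB
    obtain ⟨t, ht⟩ := hB
    have hk := const_of_not_tot hq hc (le_max_right t s1)
      fun s hs => ht s (le_trans (le_max_left _ _) hs)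
    set l := (Nk k (max t s1) e).1 with hl
    have h1 : ∀ᶠ s in atTop, ∀ n ∈ Finset.range (l + 1),
        ∃ a < s, avail e s (fr e s (Bs k s) l) a ∧ aN a = n := by
      rw [eventually_all_finset]
      intro n _
      obtain ⟨a, ha, han⟩ := htot n
      filter_upwards [eventually_av l ha] with s hs
      exact ⟨a, hs.1, hs.2, han⟩
    obtain ⟨s, hs1, hs2⟩ := (h1.and (eventually_ge_atTop (max t s1))).exists
    apply ht s (le_trans (le_max_left _ _) hs2)
    rw [hk s hs2]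
    exact fun n hn => hs1 n (Finset.mem_range.mpr hn)
  have hagree : ∀ s ≥ s1, ∀ a b, avail e s (fr e s (Bs k s) 0) a →
      avail e s (fr e s (Bs k s) 0) b → aN a = aN b → aV a = aV b := by
    intro s hs a b ha hb hn
    by_contra hv
    exact hc s hs ⟨a, ax_lt ha.1, b, ax_lt hb.1, ha, hb, hn, hv⟩
  have hchain : ∀ s ≥ s1, ∀ a, avail e s (Nk k s e).2 a → aN a < (Nk k s e).1 → ∀ t ≥ s,
      ∃ b, avail e t (Nk k t e).2 b ∧ aN b = aN a ∧ aV b = aV a := by
    intro s hs a ha hl t ht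
    induction ht with
    | refl => exact ⟨a, ha, rfl, rfl⟩
    | @step t ht ih =>
      obtain ⟨b, hb, hbn, hbv⟩ := ih
      have hts : t ≥ s1 := le_trans hs ht
      rw [cs_step hq hc hts]
      split_ifs with hT
      · obtain ⟨c, _, hc1, hc2⟩ := hT (aN a)
          (lt_of_lt_of_le hl ((level_mono hq hc hs ht).trans (Nat.le_succ _)))
        refine ⟨c, avail_mono (Nat.le_succ t) (fun _ h => h) hc1, hc2, ?_⟩
        rw [← hbv]
        refine hagree t hts c b (avail_mono le_rfl (fun x hx => ?_) hc1)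
          (avail_mono le_rfl (sub_fr hq hts) hb) (hc2.trans hbn.symm)
        have := mem_fr.mp hx
        exact mem_fr.mpr ⟨this.1, this.2.1, by simp⟩
      · exact ⟨b, avail_mono (Nat.le_succ t) (fun _ h => h) hb, hbn, hbv⟩
  let P : ℕ → ℕ → Prop := fun n m => s1 ≤ (Nat.unpair m).1 ∧ n < (Nk k (Nat.unpair m).1 e).1 ∧
    avail e (Nat.unpair m).1 (Nk k (Nat.unpair m).1 e).2 (Nat.unpair m).2 ∧
      aN (Nat.unpair m).2 = n
  have hP : PrimrecPred fun p : ℕ × ℕ => P p.1 p.2 :=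
    (pp_le (by fun_prop) (by fun_prop)).and ((pp_lt (by fun_prop) (by fun_prop)).and
      ((pp_avail (by fun_prop) (by fun_prop) (by fun_prop) (by fun_prop)).and
        (pp_eq (by fun_prop) (by fun_prop))))
  have hex : ∀ n, ∃ m, P n m := by
    intro n
    obtain ⟨s, hs, hn⟩ := level_unbounded hq hc hB (n + 1)
    obtain ⟨a, ha, han⟩ := Nk_inv (k := k) (e := e) (s := s) (n := n) hn
    refine ⟨Nat.pair s a, ?_⟩
    simp only [P, Nat.unpair_pair]
    exact ⟨hs, hn, ha, han⟩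
  have h1 : Primrec fun m : ℕ => aV (Nat.unpair m).2 := by fun_prop
  refine (h1.to_comp.comp (Computable.find hP.computablePred hex)).of_eq fun n => ?_
  obtain ⟨c, hc', hcn⟩ := htot n
  obtain ⟨h1, h2, h3, h4⟩ := Nat.find_spec (hex n)
  set s := (Nat.unpair (Nat.find (hex n))).1
  set a := (Nat.unpair (Nat.find (hex n))).2
  obtain ⟨t, ht1, ht2⟩ := ((eventually_av 0 hc').and (eventually_ge_atTop s)).exists
  obtain ⟨b, hb, hbn, hbv⟩ := hchain s h1 a h3 (h4 ▸ h2) t ht2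
  have hts : t ≥ s1 := le_trans h1 ht2
  show aV a = y n
  rw [← hbv, ← hcn, ← hsv c hc']
  exact hagree t hts b c (avail_mono le_rfl (sub_fr hq hts) hb) ht1.2
    (hbn.trans (h4.trans hcn.symm))

end Pool.Agent.MP_9a65c4_lc.Th
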